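import Pool.Agent.Lib.MP_c7af3c_ag.T2.Iface
import Pool.Agent.Lib.MP_c7af3c_ag.T2.H95.Der
import Pool.Agent.Lib.MP_c7af3c_ag.GEN.H12.Reln

/-!
# MP_c7af3c_ag, project T2, module HESS
The Hessian of `F` at a moving point has rank at least 4: apply the derivations `D_G` and the
derivations over `K` to `F(x) = 0` and to the quadratic form of the kernel vectors.
-/

set_option autoImplicit false

namespace Pool.Agent.T2.H78

open MvPolynomial Pool.Agent.Gen Pool.Agent.Sharp Pool.Agent.Edge Pool.Agent.T2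

section poly

variable {L : Type} [Field L] {N : ℕ}

/-- a derivation applied to the coefficients -/
noncomputable def md (δ : Derivation ℤ L L) (G : MvPolynomial (Fin N) L) :
    MvPolynomial (Fin N) L :=
  ∑ J ∈ G.support, monomial J (δ (coeff J G))

theorem coeff_md (δ : Derivation ℤ L L) (G : MvPolynomial (Fin N) L) (J : Fin N →₀ ℕ) :
    coeff J (md δ G) = δ (coeff J G) := by
  classical
  unfold md
  rw [coeff_sum]
  simp only [coeff_monomial]
  rw [Finset.sum_ite_eq' G.support J]
  split_ifs with h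
  · rfl
  · rw [notMem_support_iff.1 h, map_zero]

theorem md_pderiv (δ : Derivation ℤ L L) (G : MvPolynomial (Fin N) L) (p : Fin N) :
    md δ (pderiv p G) = pderiv p (md δ G) := by
  ext J
  rw [coeff_md, coeff_pderiv, coeff_pderiv, coeff_md, Derivation.leibniz]
  have h : δ ((J p : L) + 1) = 0 := by
    have : ((J p : L) + 1) = ((J p + 1 : ℕ) : L) := by push_cast; ring
    rw [this, Derivation.map_natCast]
  rw [h, smul_zero, zero_add, smul_eq_mul, mul_comm]

theorem cpart_eq (δ : Derivation ℤ L L) (x : Fin N → L) (G : MvPolynomial (Fin N) L) :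
    H12.cpart δ x G = eval x (md δ G) := by
  unfold H12.cpart md
  rw [map_sum]
  refine Finset.sum_congr rfl fun J _ => ?_
  rw [eval_monomial]
  congr 1
  rw [Finsupp.prod_fintype _ _ fun i => pow_zero _]

theorem der_eval' (δ : Derivation ℤ L L) (x : Fin N → L) (G : MvPolynomial (Fin N) L) :
    δ (eval x G) = eval x (md δ G) + ∑ r, eval x (pderiv r G) * δ (x r) := by
  rw [H12.der_eval, cpart_eq]

/-- the second derivative in the directions `u`, `w` at `x` -/
noncomputable def Q2 (x u w : Fin N → L) (G : MvPolynomial (Fin N) L) : L :=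
  ∑ p, ∑ q, eval x (pderiv q (pderiv p G)) * u p * w q

theorem Q2_add (x u w : Fin N → L) (G H : MvPolynomial (Fin N) L) :
    Q2 x u w (G + H) = Q2 x u w G + Q2 x u w H := by
  unfold Q2
  simp only [map_add, add_mul, Finset.sum_add_distrib]

theorem Q2_smul (x u w : Fin N → L) (a : L) (G : MvPolynomial (Fin N) L) :
    Q2 x u w (a • G) = a * Q2 x u w G := by
  unfold Q2
  rw [Finset.mul_sum]
  refine Finset.sum_congr rfl fun p _ => ?_
  rw [Finset.mul_sum]
  refine Finset.sum_congr rfl fun q _ => ?_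
  rw [Derivation.map_smul, Derivation.map_smul, smul_eval]
  ring

theorem Q2_zero (x u w : Fin N → L) : Q2 x u w 0 = 0 := by
  unfold Q2
  simp

theorem Q2_sum (x u w : Fin N → L) {ι : Type*} (s : Finset ι) (G : ι → MvPolynomial (Fin N) L) :
    Q2 x u w (∑ i ∈ s, G i) = ∑ i ∈ s, Q2 x u w (G i) := by
  classical
  induction s using Finset.induction_on with
  | empty => simp [Q2_zero]
  | insert a s ha ih => rw [Finset.sum_insert ha, Finset.sum_insert ha, Q2_add, ih]

/-- directional derivative -/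
noncomputable def dd (u : Fin N → L) (G : MvPolynomial (Fin N) L) : MvPolynomial (Fin N) L :=
  ∑ p, C (u p) * pderiv p G

theorem dd_mul (u : Fin N → L) (G H : MvPolynomial (Fin N) L) :
    dd u (G * H) = G * dd u H + H * dd u G := by
  unfold dd
  rw [Finset.mul_sum, Finset.mul_sum, ← Finset.sum_add_distrib]
  refine Finset.sum_congr rfl fun p _ => ?_
  rw [Derivation.leibniz, smul_eq_mul, smul_eq_mul]
  ring

theorem dd_add (u : Fin N → L) (G H : MvPolynomial (Fin N) L) :
    dd u (G + H) = dd u G + dd u H := by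
  unfold dd
  simp only [map_add, mul_add, Finset.sum_add_distrib]

theorem dd_C (u : Fin N → L) (a : L) : dd u (C a) = 0 := by
  unfold dd
  simp

theorem dd_lnf (u a : Fin N → L) : dd u (lnf a) = C (∑ p, a p * u p) := by
  classical
  unfold dd lnf
  rw [map_sum]
  refine Finset.sum_congr rfl fun p _ => ?_
  have h : pderiv p (∑ i, C (a i) * X i : MvPolynomial (Fin N) L) = C (a p) := by
    rw [map_sum, Finset.sum_eq_single p]
    · rw [pderiv_C_mul, pderiv_X_self, mul_one]
    · intro b _ hb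
      rw [pderiv_C_mul, pderiv_X_of_ne hb, mul_zero]
    · intro h; exact absurd (Finset.mem_univ p) h
  rw [h, C_mul, mul_comm]

theorem dd_pow_zero (u : Fin N → L) {G : MvPolynomial (Fin N) L} (h : dd u G = 0) (n : ℕ) :
    dd u (G ^ n) = 0 := by
  induction n with
  | zero => rw [pow_zero, ← C_1, dd_C]
  | succ n ih => rw [pow_succ, dd_mul, ih, h, mul_zero, mul_zero, add_zero]

theorem Q2_eq (x u w : Fin N → L) (G : MvPolynomial (Fin N) L) :
    Q2 x u w G = eval x (dd w (dd u G)) := by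
  unfold Q2 dd
  rw [map_sum, Finset.sum_comm]
  refine Finset.sum_congr rfl fun q _ => ?_
  rw [map_mul, eval_C, map_sum, map_sum, Finset.mul_sum]
  refine Finset.sum_congr rfl fun p _ => ?_
  rw [pderiv_C_mul, map_mul, eval_C]
  ring

theorem eval_lnf (x a : Fin N → L) : eval x (lnf a) = ∑ p, a p * x p := by
  unfold lnf
  rw [map_sum]
  refine Finset.sum_congr rfl fun p _ => ?_
  rw [map_mul, eval_C, eval_X]

theorem hom_lnf (a : Fin N → L) : (lnf a : MvPolynomial (Fin N) L).IsHomogeneous 1 := by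
  unfold lnf
  refine IsHomogeneous.sum _ _ _ fun p _ => ?_
  have h := (isHomogeneous_C (Fin N) (a p)).mul (isHomogeneous_X L p)
  rwa [zero_add] at h

/-- the value of the second derivative on `l^4 m m'` -/
theorem Q2_prod (x u w l m m' : Fin N → L) (hu : ∑ p, l p * u p = 0) (hw : ∑ p, l p * w p = 0)
    (hx : ∑ p, l p * x p = 1) :
    Q2 x u w (lnf l ^ 4 * (lnf m * lnf m')) =
      (∑ p, m p * u p) * (∑ p, m' p * w p) + (∑ p, m' p * u p) * (∑ p, m p * w p) := by
  have e1 : dd u (lnf l ^ 4 : MvPolynomial (Fin N) L) = 0 :=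
    dd_pow_zero u (by rw [dd_lnf, hu, C_0]) 4
  have e2 : dd w (lnf l ^ 4 : MvPolynomial (Fin N) L) = 0 :=
    dd_pow_zero w (by rw [dd_lnf, hw, C_0]) 4
  rw [Q2_eq, dd_mul, e1, mul_zero, add_zero, dd_mul, e2, mul_zero, add_zero, dd_mul, dd_lnf,
    dd_lnf, dd_add, dd_mul, dd_mul, dd_C, dd_C, dd_lnf, dd_lnf, mul_zero, zero_add, mul_zero,
    zero_add, map_mul, map_pow, eval_lnf, hx, one_pow, one_mul, map_add, map_mul, map_mul]
  simp only [eval_C]
  ring

theorem Q2_pow (x u w l : Fin N → L) (hu : ∑ p, l p * u p = 0) (n : ℕ) :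
    Q2 x u w (lnf l ^ n) = 0 := by
  have e1 : dd u (lnf l ^ n : MvPolynomial (Fin N) L) = 0 :=
    dd_pow_zero u (by rw [dd_lnf, hu, C_0]) n
  rw [Q2_eq, e1, ← C_0, dd_C, map_zero]

theorem pd_comm (p q : Fin N) (G : MvPolynomial (Fin N) L) :
    pderiv p (pderiv q G) = pderiv q (pderiv p G) := by
  classical
  ext J
  rw [coeff_pderiv, coeff_pderiv, coeff_pderiv, coeff_pderiv, add_right_comm]
  by_cases h : p = q
  · subst h; rfl
  · simp only [Finsupp.add_apply, Finsupp.single_apply, if_neg h, if_neg (Ne.symm h), add_zero]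
    ring

/-- the main identity: differentiate `F''(x) u = 0`, pair with `w` -/
theorem Q2_der (δ : Derivation ℤ L L) (F : MvPolynomial (Fin N) L) (x u w : Fin N → L)
    (hu : ∀ q, ∑ p, eval x (pderiv q (pderiv p F)) * u p = 0)
    (hw : ∀ q, ∑ p, eval x (pderiv q (pderiv p F)) * w p = 0) :
    Q2 x u w (md δ F) + ∑ r, Q2 x u w (pderiv r F) * δ (x r) = 0 := by
  -- the entries
  have hE : ∀ p q, δ (eval x (pderiv q (pderiv p F))) =
      eval x (pderiv q (pderiv p (md δ F))) +
        ∑ r, eval x (pderiv q (pderiv p (pderiv r F))) * δ (x r) := by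
    intro p q
    rw [der_eval', md_pderiv, md_pderiv]
    congr 1
    refine Finset.sum_congr rfl fun r _ => ?_
    rw [pd_comm r q, pd_comm r p]
  have h1 : ∀ q, ∑ p, (δ (eval x (pderiv q (pderiv p F))) * u p +
      eval x (pderiv q (pderiv p F)) * δ (u p)) = 0 := by
    intro q
    have h := congrArg δ (hu q)
    rw [map_sum, map_zero] at h
    rw [← h]
    refine Finset.sum_congr rfl fun p _ => ?_
    rw [Derivation.leibniz, smul_eq_mul, smul_eq_mul]
    ring
  have h2 : ∑ q, (∑ p, δ (eval x (pderiv q (pderiv p F))) * u p) * w q = 0 := by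
    have h3 : ∑ q, (∑ p, eval x (pderiv q (pderiv p F)) * δ (u p)) * w q = 0 := by
      have h4 : ∀ q, (∑ p, eval x (pderiv q (pderiv p F)) * δ (u p)) * w q =
          ∑ p, (eval x (pderiv p (pderiv q F)) * w q) * δ (u p) := by
        intro q
        rw [Finset.sum_mul]
        refine Finset.sum_congr rfl fun p _ => ?_
        rw [pd_comm q p]
        ring
      rw [Finset.sum_congr rfl fun q _ => h4 q, Finset.sum_comm]
      refine Finset.sum_eq_zero fun p _ => ?_
      rw [← Finset.sum_mul, hw p, zero_mul]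
    have h5 : ∑ q, (∑ p, (δ (eval x (pderiv q (pderiv p F))) * u p +
        eval x (pderiv q (pderiv p F)) * δ (u p))) * w q = 0 :=
      Finset.sum_eq_zero fun q _ => by rw [h1 q, zero_mul]
    simp only [Finset.sum_add_distrib, add_mul] at h5
    rw [h3, add_zero] at h5
    exact h5
  have h6 : Q2 x u w (md δ F) + ∑ r, Q2 x u w (pderiv r F) * δ (x r) =
      ∑ q, (∑ p, δ (eval x (pderiv q (pderiv p F))) * u p) * w q := by
    have h7 : ∀ r, Q2 x u w (pderiv r F) * δ (x r) =
        ∑ q, ∑ p, eval x (pderiv q (pderiv p (pderiv r F))) * δ (x r) * u p * w q := by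
      intro r
      unfold Q2
      rw [Finset.sum_comm, Finset.sum_mul]
      refine Finset.sum_congr rfl fun q _ => ?_
      rw [Finset.sum_mul]
      refine Finset.sum_congr rfl fun p _ => ?_
      ring
    have h8 : Q2 x u w (md δ F) =
        ∑ q, ∑ p, eval x (pderiv q (pderiv p (md δ F))) * u p * w q := by
      unfold Q2
      rw [Finset.sum_comm]
    rw [Finset.sum_congr rfl fun r _ => h7 r, Finset.sum_comm, h8, ← Finset.sum_add_distrib]
    refine Finset.sum_congr rfl fun q _ => ?_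
    rw [Finset.sum_comm, ← Finset.sum_add_distrib, Finset.sum_mul]
    refine Finset.sum_congr rfl fun p _ => ?_
    rw [hE p q, add_mul, add_mul, Finset.sum_mul, Finset.sum_mul]
  rw [h6, h2]

end poly

/-- dual linear forms -/
theorem exists_dual {L : Type} [Field L] {N m : ℕ} (v : Fin m → Fin N → L)
    (hv : LinearIndependent L v) :
    ∃ a : Fin m → Fin N → L, ∀ i j, ∑ p, a i p * v j p = if i = j then 1 else 0 := by
  classical
  have hinj : LinearMap.ker (Fintype.linearCombination L v) = ⊥ := by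
    rw [LinearMap.ker_eq_bot]
    exact linearIndependent_iff_injective_fintypeLinearCombination.1 hv
  obtain ⟨g, hg⟩ := LinearMap.exists_leftInverse_of_injective _ hinj
  refine ⟨fun i p => g (Pi.single p 1) i, fun i j => ?_⟩
  have h1 : g (v j) = Pi.single j 1 := by
    have h2 := LinearMap.congr_fun hg (Pi.single j 1)
    rw [LinearMap.comp_apply, Fintype.linearCombination_apply_single, one_smul] at h2
    exact h2
  have h3 : v j = ∑ p, v j p • (Pi.single p (1 : L) : Fin N → L) := by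
    funext q
    rw [Finset.sum_apply, Finset.sum_eq_single q]
    · rw [Pi.smul_apply, Pi.single_eq_same, smul_eq_mul, mul_one]
    · intro b _ hb
      rw [Pi.smul_apply, Pi.single_eq_of_ne (Ne.symm hb), smul_zero]
    · intro h; exact absurd (Finset.mem_univ q) h
  have h4 : g (v j) i = ∑ p, g (Pi.single p 1) i * v j p := by
    conv_lhs => rw [h3]
    rw [map_sum, Finset.sum_apply]
    refine Finset.sum_congr rfl fun p _ => ?_
    rw [map_smul, Pi.smul_apply, smul_eq_mul, mul_comm]
  rw [← h4, h1, Pi.single_apply]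

section main

variable {Ω : Type} [Field Ω] (D : D6 Ω) (x : Fin (4 + 1) → Ω)

/-- the dual derivation applied to the coefficients of `F` -/
theorem md_del {I : Fin (4 + 1) →₀ ℕ} (hI : I.degree = 6) :
    md (D.del 0 I) (D.F 0) = monomial I 1 := by
  classical
  ext J
  rw [coeff_md, coeff_monomial]
  by_cases hJ : J.degree = 6
  · rw [D.dual 0 I 0 J hI hJ]
    by_cases h : I = J
    · rw [if_pos ⟨rfl, h⟩, if_pos h]
    · rw [if_neg fun h' => h h'.2, if_neg h]
  · have h1 : coeff J (D.F 0) = 0 := by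
      by_contra h
      apply hJ
      have h2 := (D.hom 0) h
      rw [← h2, Finsupp.degree_eq_weight_one]
      rfl
    rw [h1, map_zero, if_neg]
    rintro rfl
    exact hJ hI

/-- a linear functional of the coefficients, in terms of `V` -/
theorem lin_V (φ : MvPolynomial (Fin (4 + 1)) Ω →ₗ[Ω] Ω) (c : Fin (4 + 1) → Ω)
    (h : ∀ I : Fin (4 + 1) →₀ ℕ, I.degree = 6 →
      φ (monomial I 1) + ∑ r, c r * D.del 0 I (x r) = 0)
    {G : MvPolynomial (Fin (4 + 1)) Ω} (hG : G.IsHomogeneous 6) :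
    φ G + ∑ r, c r * D.V x 0 G r = 0 := by
  have h1 : φ G = ∑ I ∈ G.support, coeff I G * φ (monomial I 1) := by
    conv_lhs => rw [G.as_sum]
    rw [map_sum]
    refine Finset.sum_congr rfl fun I _ => ?_
    have h2 : (monomial I (coeff I G) : MvPolynomial (Fin (4 + 1)) Ω) =
        coeff I G • monomial I 1 := by
      rw [smul_monomial, smul_eq_mul, mul_one]
    rw [h2, map_smul, smul_eq_mul]
  have h3 : ∑ r, c r * D.V x 0 G r =
      ∑ I ∈ G.support, coeff I G * ∑ r, c r * D.del 0 I (x r) := by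
    have h4 : ∀ r, c r * D.V x 0 G r =
        ∑ I ∈ G.support, coeff I G * (c r * D.del 0 I (x r)) := by
      intro r
      rw [DSys.V_apply, Finset.mul_sum]
      refine Finset.sum_congr rfl fun I _ => ?_
      ring
    rw [Finset.sum_congr rfl fun r _ => h4 r, Finset.sum_comm]
    refine Finset.sum_congr rfl fun I _ => ?_
    rw [Finset.mul_sum]
  rw [h1, h3, ← Finset.sum_add_distrib]
  refine Finset.sum_eq_zero fun I hI => ?_
  rw [← mul_add, h I, mul_zero]
  have h2 := hG (mem_support_iff.1 hI)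
  rw [← h2, Finsupp.degree_eq_weight_one]
  rfl

/-- `Q2` as a linear map -/
noncomputable def Q2l (u w : Fin (4 + 1) → Ω) : MvPolynomial (Fin (4 + 1)) Ω →ₗ[Ω] Ω where
  toFun := Q2 x u w
  map_add' := Q2_add x u w
  map_smul' := fun a G => by rw [Q2_smul, RingHom.id_apply, smul_eq_mul]

/-- evaluation as a linear map -/
noncomputable def evl : MvPolynomial (Fin (4 + 1)) Ω →ₗ[Ω] Ω where
  toFun := eval x
  map_add' := fun _ _ => map_add _ _ _
  map_smul' := fun a G => by rw [smul_eval, RingHom.id_apply, smul_eq_mul]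

end main

theorem hess : HessStatement := by
  intro Ω _ _ K D x j0 hj0 h0 hF hK hx u hu hcon
  classical
  obtain ⟨a, ha⟩ := exists_dual _ hu
  -- the functionals
  let φ : Fin 4 → MvPolynomial (Fin (4 + 1)) Ω →ₗ[Ω] Ω :=
    ![evl x, Q2l x (u 0) (u 0), Q2l x (u 0) (u 1), Q2l x (u 1) (u 1)]
  let c : Fin 4 → Fin (4 + 1) → Ω := fun k r => φ k (pderiv r (D.F 0))
  -- the relation for every derivation
  have hder : ∀ (δ : Derivation ℤ Ω Ω) (k : Fin 4),
      φ k (md δ (D.F 0)) + ∑ r, c k r * δ (x r) = 0 := by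
    intro δ k
    fin_cases k
    · change eval x (md δ (D.F 0)) + ∑ r, eval x (pderiv r (D.F 0)) * δ (x r) = 0
      rw [← der_eval', h0, map_zero]
    · exact Q2_der δ (D.F 0) x (u 0) (u 0) (hcon 0) (hcon 0)
    · exact Q2_der δ (D.F 0) x (u 0) (u 1) (hcon 0) (hcon 1)
    · exact Q2_der δ (D.F 0) x (u 1) (u 1) (hcon 1) (hcon 1)
  have hV : ∀ (k : Fin 4) (G : MvPolynomial (Fin (4 + 1)) Ω), G.IsHomogeneous 6 →
      φ k G + ∑ r, c k r * D.V x 0 G r = 0 := by
    intro k G hG
    refine lin_V D x (φ k) (c k) (fun I hI => ?_) hG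
    have h1 := hder (D.del 0 I) k
    rw [md_del D hI] at h1
    exact h1
  -- four sextics
  let G : Fin 4 → MvPolynomial (Fin (4 + 1)) Ω :=
    ![lnf (a 0) ^ 6, lnf (a 0) ^ 4 * (lnf (a 1) * lnf (a 1)),
      lnf (a 0) ^ 4 * (lnf (a 1) * lnf (a 2)), lnf (a 0) ^ 4 * (lnf (a 2) * lnf (a 2))]
  have hGh : ∀ k, (G k).IsHomogeneous 6 := by
    intro k
    have e1 : ∀ i, (lnf (a i) : MvPolynomial (Fin (4 + 1)) Ω).IsHomogeneous 1 :=
      fun i => hom_lnf (a i)
    fin_cases k
    · exact (e1 0).pow 6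
    · exact ((e1 0).pow 4).mul ((e1 1).mul (e1 1))
    · exact ((e1 0).pow 4).mul ((e1 1).mul (e1 2))
    · exact ((e1 0).pow 4).mul ((e1 2).mul (e1 2))
  have v00 : ∑ p, a 0 p * x p = 1 := by simpa using ha 0 0
  have v01 : ∑ p, a 0 p * u 0 p = 0 := by simpa using ha 0 1
  have v02 : ∑ p, a 0 p * u 1 p = 0 := by simpa using ha 0 2
  have v10 : ∑ p, a 1 p * x p = 0 := by simpa using ha 1 0
  have v11 : ∑ p, a 1 p * u 0 p = 1 := by simpa using ha 1 1
  have v12 : ∑ p, a 1 p * u 1 p = 0 := by simpa using ha 1 2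
  have v20 : ∑ p, a 2 p * x p = 0 := by simpa using ha 2 0
  have v21 : ∑ p, a 2 p * u 0 p = 0 := by simpa using ha 2 1
  have v22 : ∑ p, a 2 p * u 1 p = 1 := by simpa using ha 2 2
  have hdiag : ∀ k l, φ k (G l) = if k = l then ![1, 2, 1, 2] k else 0 := by
    intro k l
    fin_cases k
    · change eval x (G l) = _
      fin_cases l
      · change eval x (lnf (a 0) ^ 6) = _
        rw [map_pow, eval_lnf, v00, one_pow]; simp
      · change eval x (lnf (a 0) ^ 4 * (lnf (a 1) * lnf (a 1))) = _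
        rw [map_mul, map_mul, eval_lnf x (a 1), v10]; simp
      · change eval x (lnf (a 0) ^ 4 * (lnf (a 1) * lnf (a 2))) = _
        rw [map_mul, map_mul, eval_lnf x (a 1), v10]; simp
      · change eval x (lnf (a 0) ^ 4 * (lnf (a 2) * lnf (a 2))) = _
        rw [map_mul, map_mul, eval_lnf x (a 2), v20]; simp
    · change Q2 x (u 0) (u 0) (G l) = _
      fin_cases l
      · change Q2 x (u 0) (u 0) (lnf (a 0) ^ 6) = _
        rw [Q2_pow x _ _ _ v01]; simp
      · change Q2 x (u 0) (u 0) (lnf (a 0) ^ 4 * (lnf (a 1) * lnf (a 1))) = _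
        rw [Q2_prod x _ _ _ _ _ v01 v01 v00, v11]; norm_num
      · change Q2 x (u 0) (u 0) (lnf (a 0) ^ 4 * (lnf (a 1) * lnf (a 2))) = _
        rw [Q2_prod x _ _ _ _ _ v01 v01 v00, v11, v21]; simp
      · change Q2 x (u 0) (u 0) (lnf (a 0) ^ 4 * (lnf (a 2) * lnf (a 2))) = _
        rw [Q2_prod x _ _ _ _ _ v01 v01 v00, v21]; simp
    · change Q2 x (u 0) (u 1) (G l) = _
      fin_cases l
      · change Q2 x (u 0) (u 1) (lnf (a 0) ^ 6) = _
        rw [Q2_pow x _ _ _ v01]; simp
      · change Q2 x (u 0) (u 1) (lnf (a 0) ^ 4 * (lnf (a 1) * lnf (a 1))) = _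
        rw [Q2_prod x _ _ _ _ _ v01 v02 v00, v12]; simp
      · change Q2 x (u 0) (u 1) (lnf (a 0) ^ 4 * (lnf (a 1) * lnf (a 2))) = _
        rw [Q2_prod x _ _ _ _ _ v01 v02 v00, v11, v22, v21, v12]; simp
      · change Q2 x (u 0) (u 1) (lnf (a 0) ^ 4 * (lnf (a 2) * lnf (a 2))) = _
        rw [Q2_prod x _ _ _ _ _ v01 v02 v00, v21]; simp
    · change Q2 x (u 1) (u 1) (G l) = _
      fin_cases l
      · change Q2 x (u 1) (u 1) (lnf (a 0) ^ 6) = _
        rw [Q2_pow x _ _ _ v02]; simp
      · change Q2 x (u 1) (u 1) (lnf (a 0) ^ 4 * (lnf (a 1) * lnf (a 1))) = _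
        rw [Q2_prod x _ _ _ _ _ v02 v02 v00, v12]; simp
      · change Q2 x (u 1) (u 1) (lnf (a 0) ^ 4 * (lnf (a 1) * lnf (a 2))) = _
        rw [Q2_prod x _ _ _ _ _ v02 v02 v00, v12]; simp
      · change Q2 x (u 1) (u 1) (lnf (a 0) ^ 4 * (lnf (a 2) * lnf (a 2))) = _
        rw [Q2_prod x _ _ _ _ _ v02 v02 v00, v22]; norm_num
  have hne : ∀ k : Fin 4, (![1, 2, 1, 2] k : Ω) ≠ 0 := by
    intro k
    fin_cases k <;> simp
  -- the linear map
  let ψ : (Fin (4 + 1) → Ω) →ₗ[Ω] (Fin (4 + 1) → Ω) :=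
    (Matrix.of (Fin.cons (Pi.single j0 1) c : Fin (4 + 1) → Fin (4 + 1) → Ω)).mulVecLin
  have ψ0 : ∀ w, ψ w 0 = w j0 := by
    intro w
    change ∑ r, (Pi.single j0 (1 : Ω) : Fin (4 + 1) → Ω) r * w r = w j0
    rw [Finset.sum_eq_single j0]
    · rw [Pi.single_eq_same, one_mul]
    · intro b _ hb
      rw [Pi.single_eq_of_ne hb, zero_mul]
    · intro h; exact absurd (Finset.mem_univ j0) h
  have ψs : ∀ w (k : Fin 4), ψ w k.succ = ∑ r, c k r * w r := fun w k => rfl
  have hVj0 : ∀ H : MvPolynomial (Fin (4 + 1)) Ω, D.V x 0 H j0 = 0 := by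
    intro H
    rw [DSys.V_apply]
    refine Finset.sum_eq_zero fun I _ => ?_
    rw [hj0, Derivation.map_one_eq_zero, mul_zero]
  have hsurj : Function.Surjective ψ := by
    intro y
    let H : MvPolynomial (Fin (4 + 1)) Ω :=
      ∑ l, ((y 0 * (ψ x l.succ) - y l.succ) / ![1, 2, 1, 2] l) • G l
    have hH : H.IsHomogeneous 6 := by
      refine IsHomogeneous.sum _ _ _ fun l _ => ?_
      have h := (isHomogeneous_C (Fin (4 + 1))
        ((y 0 * (ψ x l.succ) - y l.succ) / ![1, 2, 1, 2] l)).mul (hGh l)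
      rw [zero_add] at h
      rw [smul_eq_C_mul]
      exact h
    refine ⟨y 0 • x + D.V x 0 H, ?_⟩
    funext k
    refine Fin.cases ?_ (fun k => ?_) k
    · rw [ψ0, Pi.add_apply, Pi.smul_apply, hVj0 H, hj0, smul_eq_mul, mul_one, add_zero]
    · rw [map_add, map_smul, Pi.add_apply, Pi.smul_apply, smul_eq_mul, ψs (D.V x 0 H)]
      have h1 := hV k H hH
      have h2 : φ k H = y 0 * (ψ x k.succ) - y k.succ := by
        change φ k (∑ l, ((y 0 * (ψ x l.succ) - y l.succ) / ![1, 2, 1, 2] l) • G l) = _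
        rw [map_sum, Finset.sum_eq_single k]
        · rw [map_smul, hdiag k k, if_pos rfl, smul_eq_mul, div_mul_cancel₀ _ (hne k)]
        · intro b _ hb
          rw [map_smul, hdiag k b, if_neg (Ne.symm hb), smul_zero]
        · intro h; exact absurd (Finset.mem_univ k) h
      rw [h2] at h1
      linear_combination h1
  have hinj : Function.Injective ψ := LinearMap.injective_iff_surjective.2 hsurj
  -- derivations over `K`
  obtain ⟨i, hi⟩ := hx
  apply hi
  apply H95.mem_of_der K
  · intro y hy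
    obtain ⟨P, hP, hP'⟩ := hy
    refine hK y (P.map K.subtype) ?_ (fun n => ?_) ?_
    · intro h
      apply hP
      exact (Polynomial.map_eq_zero_iff K.subtype_injective).1 h
    · rw [Polynomial.coeff_map]
      exact (P.coeff n).2
    · rw [Polynomial.eval_map]
      exact hP'
  · intro δ hδ
    have h1 : ψ (fun r => δ (x r)) = 0 := by
      funext k
      refine Fin.cases ?_ (fun k => ?_) k
      · rw [ψ0, hj0, Derivation.map_one_eq_zero]; rfl
      · rw [ψs]
        have h2 := hder δ k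
        have h3 : md δ (D.F 0) = 0 := by
          ext J
          rw [coeff_md, hδ _ (hF J), coeff_zero]
        rw [h3, map_zero, zero_add] at h2
        exact h2
    have h4 : (fun r => δ (x r)) = 0 := hinj (by rw [h1, map_zero])
    exact congrFun h4 i

end Pool.Agent.T2.H78
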